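import Pool.Agent.helper84.NR.SpecW

set_option autoImplicit false

namespace Pool.Agent.helper84.NR

open scoped Classical
open Finset

theorem TOPW_top {V F : Type} [Fintype V] [Fintype F] (M : PMap V F) (x y : V)
    (ne : ∀ f, ¬ (OnV M.toCyc f x ∧ OnV M.toCyc f y)) (h0 : (XM M y x).Nonempty) :
    TopW M x y (XM M y x) := by
  refine ⟨ne, ?_, ?_, ?_, h0⟩
  · intro B hB
    unfold XM at hB
    rw [mem_filter] at hB
    exact hB.2.1
  · intro B hB
    unfold XM at hB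
    rw [mem_filter] at hB
    obtain ⟨_, hBy, A, hAx, v, hBv, hAv⟩ := hB
    obtain ⟨_, h2, _⟩ := h_IDX V F M.toCyc B (st M y B)
    obtain ⟨a, ha, hav⟩ := h2 v hBv
    have hav' : ww M y B a = v := hav
    refine ⟨a, ?_, ha, A, hAx, ?_⟩
    · rcases Nat.eq_zero_or_pos a with h | h
      · exfalso
        subst h
        have h3 := (h_WW0 V F M y B hBy).1
        rw [h3] at hav'
        subst hav'
        exact ne A ⟨hAx, hAv⟩
      · exact h
    · rw [hav']
      exact hAv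
  · intro B hBy hk
    obtain ⟨k, _, _, A, hAx, hA⟩ := hk
    unfold XM
    rw [mem_filter]
    exact ⟨mem_univ _, hBy, A, hAx, ww M y B k, ⟨st M y B + k, rfl⟩, hA⟩

theorem TOPW (hCNTW : CNTW_stmt) (hGCNW : GCNW_stmt) (hCCTW : CCTW_stmt) : TOPW_stmt := by
  intro V F _ _ M x y ne h0
  have hT := TOPW_top M x y ne h0
  have h1 := h_LIN V F M (inU M x y (XM M y x)) (inW M x y (XM M y x)) ?_ ?_ ?_
  · have h2 := hCNTW V F M x y (XM M y x) hT
    have h3 := hGCNW V F M x y (XM M y x) hT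
    have h4 := hCCTW V F M x y (XM M y x) hT
    have h4' : 2 * (Nat.card (Quot (lk M (inU M x y (XM M y x)))) : ℤ) + ((sX M x y).card : ℤ) ≤
        4 + ((gaps M x y (XM M y x)).card : ℤ) + ((XM M x y).card : ℤ) := by
      exact_mod_cast h4
    linarith
  · rintro e (⟨_, A, _, hA⟩ | ⟨B, _, k, _, rfl⟩)
    · exact ⟨A, hA⟩
    · exact ⟨B, st M y B + k, rfl⟩
  · obtain ⟨f, k, hk⟩ := M.cover x
    have he : OnE M.toCyc f s(M.bd f k, M.bd f (k + 1)) := ⟨k, rfl⟩
    obtain ⟨_, hv, hne⟩ := (h_EDG V F M).1 f _ _ he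
    refine ⟨M.bd f (k + 1), Or.inl ⟨?_, f, ⟨k, hk⟩, hv⟩⟩
    intro hx
    exact hne (hk.trans hx.symm)
  · rintro e (⟨hx, A, hAx, k, rfl⟩ | ⟨B, hB, k, hk, rfl⟩) v hv
    · refine Or.inl ⟨?_, A, hAx, ?_⟩
      · rintro rfl
        exact hx hv
      · rw [Sym2.mem_iff] at hv
        rcases hv with rfl | rfl
        · exact ⟨k, rfl⟩
        · exact ⟨k + 1, rfl⟩
    · rw [Sym2.mem_iff] at hv
      rcases hv with rfl | rfl
      · exact Or.inr ⟨B, hB, k, hk, rfl⟩
      · obtain ⟨⟨a, hak, ha⟩, b, hkb, hb⟩ := hk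
        by_cases hb1 : b = k + 1
        · subst hb1
          obtain ⟨_, _, A, hAx, hA⟩ := hb
          refine Or.inl ⟨?_, A, hAx, hA⟩
          intro hx
          exact hT.ne B ⟨⟨_, hx⟩, hT.jy B hB⟩
        · exact Or.inr ⟨B, hB, k + 1, ⟨⟨a, by omega, ha⟩, b, by omega, hb⟩, rfl⟩

end Pool.Agent.helper84.NR
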